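import Pool.Agent.X88.QDens

/-!
# A quasi-density on the integers without the weak Darboux property
-/

set_option autoImplicit false

namespace Pool.Agent.Results.MP_52e7c8_nt.DarbouxFails

/-- Upper quasi-densities on `ℤ`. -/
structure IsUpperQuasiDensity (μ : Set ℤ → ℝ) : Prop where
  total : μ Set.univ = 1
  subadd : ∀ X Y : Set ℤ, μ (X ∪ Y) ≤ μ X + μ Y
  affine : ∀ (X : Set ℤ) (h k : ℕ), 0 < h → 0 < k →
    μ ((fun x : ℤ => (k : ℤ) * x + h) '' X) = 1 / (k : ℝ) * μ X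
  le_one : ∀ X : Set ℤ, μ X ≤ 1

/-- The domain of the quasi-density induced by `μ`. -/
def Dom (μ : Set ℤ → ℝ) : Set (Set ℤ) := {X | μ X + μ Xᶜ = 1}

/-- The statement of Q1 for `ℤ`: for every quasi-density on `ℤ`, every set `X` in the domain and
every `a` between `0` and the value at `X`, some subset `Y` of `X` in the domain has value `a`. -/
def Question : Prop :=
  ∀ μ : Set ℤ → ℝ, IsUpperQuasiDensity μ → ∀ X ∈ Dom μ, ∀ a ∈ Set.Icc 0 (μ X),
    ∃ Y ∈ Dom μ, Y ⊆ X ∧ μ Y = a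

open Pool.Agent.X88.QDens

/-- There is an upper quasi-density on `ℤ` and a set `X` in the domain of the induced quasi-density,
of value `1 / 2`, such that every subset of `X` in the domain has value `0` or `1 / 2`; hence the
answer to Q1 is negative. -/
theorem result :
    (∃ μ : Set ℤ → ℝ, IsUpperQuasiDensity μ ∧ ∃ X ∈ Dom μ, μ X = 1 / 2 ∧
      ∀ Y ∈ Dom μ, Y ⊆ X → μ Y = 0 ∨ μ Y = 1 / 2) ∧ ¬ Question := by
  have main : ∃ μ : Set ℤ → ℝ, IsUpperQuasiDensity μ ∧ ∃ X ∈ Dom μ, μ X = 1 / 2 ∧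
      ∀ Y ∈ Dom μ, Y ⊆ X → μ Y = 0 ∨ μ Y = 1 / 2 := by
    obtain ⟨X, hX⟩ := exists_gen
    obtain ⟨h1, h2⟩ := mu_X hX
    refine ⟨mu X, ⟨mu_univ hX, mu_union X, ?_, mu_le_one X⟩, X, ?_, h1, ?_⟩
    · intro Z h k _ hk
      exact le_antisymm (mu_dil_le X Z hk h) (le_mu_dil hX Z hk h)
    · change mu X X + mu X Xᶜ = 1
      rw [h1, h2]
      norm_num
    · intro Y hY hYX
      by_cases hne : Y = X
      · right
        rw [hne, h1]
      · left
        exact le_antisymm (Pool.Agent.X88.QDens.main hX hYX hne hY) (mu_nonneg _ _)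
  refine ⟨main, fun hq => ?_⟩
  obtain ⟨μ, hμ, X, hX, h1, h2⟩ := main
  obtain ⟨Y, hY, hYX, hYa⟩ := hq μ hμ X hX (1 / 4) ⟨by norm_num, by rw [h1]; norm_num⟩
  rcases h2 Y hY hYX with h | h <;> rw [h] at hYa <;> norm_num at hYa

end Pool.Agent.Results.MP_52e7c8_nt.DarbouxFails
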